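import Pool.Agent.MP_1246c0_nt.H12.SpecA
import Pool.Agent.MP_db5b97_nt.H10.NT1
import Pool.Agent.MP_db5b97_nt.H21.NT2

/-! The symbol vanishes on a ray in every layer of the tower. -/

namespace Pool.Agent.MP_1246c0_nt.H12

open NumberField IsDedekindDomain Pool.Agent.MP_db5b97_nt Pool.Agent.MP_db5b97_nt.H85

namespace RD

theorem tw_zero {R : Type} [CommRing R] (k : ℕ) :
    tw^[k + 1] (0 : R) = 2 ∨ tw^[k + 1] (0 : R) = -2 := by
  induction k with
  | zero => right; simp [tw]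
  | succ k ih =>
    left
    rw [Function.iterate_succ_apply']
    rcases ih with h | h <;> rw [h, tw] <;> norm_num

theorem tw_dvd {R : Type} [CommRing R] (S : Subring R) {x : R} (hx : x ∈ S) (k : ℕ) :
    tw^[k] (0 : R) ∈ S ∧ ∃ c ∈ S, tw^[k] x = tw^[k] 0 + x * c := by
  have h2 : (2 : R) ∈ S := by exact_mod_cast natCast_mem S 2
  induction k with
  | zero => exact ⟨S.zero_mem, 1, S.one_mem, by simp⟩
  | succ k ih =>
    obtain ⟨h0, c, hc, e⟩ := ih
    rw [Function.iterate_succ_apply', Function.iterate_succ_apply', e]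
    refine ⟨S.sub_mem (S.pow_mem h0 2) h2, 2 * tw^[k] 0 * c + x * c ^ 2,
      S.add_mem (S.mul_mem (S.mul_mem h2 h0) hc) (S.mul_mem hx (S.pow_mem hc 2)), ?_⟩
    unfold tw
    ring

theorem two_div {R : Type} [Field R] (S : Subring R) {x : R} (hx : x ∈ S) (h0 : x ≠ 0) (k : ℕ)
    (h : tw^[k + 1] x = 0) : 2 / x ∈ S := by
  obtain ⟨-, c, hc, e⟩ := tw_dvd S hx (k + 1)
  rw [h] at e
  rcases tw_zero (R := R) k with h' | h' <;> rw [h'] at e
  · have : 2 / x = -c := by
      field_simp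
      linear_combination -e
    rw [this]
    exact S.neg_mem hc
  · have : 2 / x = c := by
      field_simp
      linear_combination e
    rw [this]
    exact hc

theorem map_Rl {F : Type} [Field F] [NumberField F] (g : F ≃ₐ[ℚ] F) {y : F} (hy : y ∈ Rl F 2) :
    g y ∈ Rl F 2 := by
  obtain ⟨s, hs, h⟩ := hy
  refine ⟨s, hs, ?_⟩
  have := h.map (g.toAlgHom.restrictScalars ℤ)
  simpa using this

variable {F F' : Type} [Field F] [NumberField F] [Field F'] [NumberField F'] [Algebra F F']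

theorem step (hA : SRA) (M : ℕ) (hM : 1 ≤ M)
    (H : ∀ x ∈ Ray F 2 M, ∀ c : Un F', dy (Un.inc F F' x) c = 0) (a : Un F')
    (H' : ∀ y : Un F, dy a (Un.inc F F' y) = 0) (t r₀ r₁ : F') (a₀ a₁ : F)
    (ha : a.val = algebraMap F F' a₀ + algebraMap F F' a₁ * t) (h₀ : r₀ ∈ Rl F' 2)
    (h₁ : r₁ ∈ Rl F' 2) (e₀ : algebraMap F F' a₀ = 1 + 2 ^ M * r₀)
    (e₁ : algebraMap F F' a₁ = 2 ^ M * r₁) (b : Un F') (b₀ b₁ : F)
    (hb : b.val = algebraMap F F' b₀ + algebraMap F F' b₁ * t) (hb₁ : b₁ ≠ 0)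
    (hr : algebraMap F F' b₀ / algebraMap F F' b₁ ∈ Rl F' 2) : dy a b = 0 := by
  have hj := (algebraMap F F').injective
  have hB : algebraMap F F' b₁ ≠ 0 := by simpa using hb₁
  have hu : r₀ - r₁ * (algebraMap F F' b₀ / algebraMap F F' b₁) ∈ Rl F' 2 :=
    sub_mem h₀ (mul_mem h₁ hr)
  have e : algebraMap F F' (a₀ - a₁ * (b₀ / b₁)) =
      1 + ((2 : ℕ) : F') ^ M * (r₀ - r₁ * (algebraMap F F' b₀ / algebraMap F F' b₁)) := by
    rw [map_sub, map_mul, map_div₀, e₀, e₁]
    push_cast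
    ring
  have hne : a₀ - a₁ * (b₀ / b₁) ≠ 0 := by
    intro h
    obtain ⟨k, rfl⟩ := Nat.exists_eq_add_of_le' hM
    obtain ⟨w, hw⟩ : ∃ w : Sp F', ((2 : ℕ) : 𝓞 F') ∈ w.asIdeal := by
      have hnu : Ideal.span {((2 : ℕ) : 𝓞 F')} ≠ ⊤ := by
        rw [Ne, Ideal.span_singleton_eq_top]
        intro hu
        have h3 := hu.map (Algebra.norm ℤ)
        rw [show ((2 : ℕ) : 𝓞 F') = algebraMap ℤ _ 2 by simp, Algebra.norm_algebraMap,
          isUnit_pow_iff Module.finrank_pos.ne'] at h3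
        revert h3
        decide
      obtain ⟨P, hP, hle⟩ := Ideal.exists_le_maximal _ hnu
      have h2 := hle (Ideal.mem_span_singleton_self _)
      exact ⟨⟨P, hP.isPrime, fun h => by simp [h] at h2⟩, h2⟩
    have h1 := val_one_add hw two_ne_zero
      (mul_mem (pow_mem (natCast_mem (Rl F' 2) 2) k) hu)
    rw [← mul_assoc, ← pow_succ', ← e, h] at h1
    simp at h1
  have hx : -Un.mk _ hne ∈ Ray F 2 M :=
    neg_mem ((rowNT2.inc_Ray F F' 2 M _).1 ((mem_Ray_iff two_ne_zero hM).2 ⟨_, hu, e⟩))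
  by_cases h1 : a₁ = 0
  · have : a = -Un.inc F F' (-Un.mk _ hne) := Un.ext (by simp [ha, h1])
    rw [this, ← map_neg]
    exact H _ (neg_mem hx) b
  · have hy : -(a₁ / b₁) ≠ 0 := by simp [h1, hb₁]
    have hne' : algebraMap F F' a₀ -
        algebraMap F F' a₁ * (algebraMap F F' b₀ / algebraMap F F' b₁) ≠ 0 := by
      rw [← map_div₀, ← map_mul, ← map_sub]
      exact fun h => hne (hj (h.trans (map_zero _).symm))
    have h2 := hA.stb F' (Un.inc F F' (-Un.mk _ hne) + a)
      (Un.inc F F' (-Un.mk _ hne + Un.mk _ hy) + b) (by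
        simp only [Un.val_add, Un.val_inc, Un.val_neg, Un.val_mk, map_mul, map_inv₀, map_sub,
          map_div₀, map_neg, ha, hb]
        rw [mul_assoc, ← mul_add, inv_mul_eq_one₀ hne']
        field_simp
        ring)
    rw [hA.add, H _ hx, zero_add, hA.symm, hA.add, hA.symm, H', zero_add, hA.symm] at h2
    exact h2

end RD

open RD in
theorem rowRD : OfRD := by
  intro hC hA hB hR n
  induction n with
  | zero => exact fun F _ _ θ γ h a ha b => hR F h.rk a ha b
  | succ n ih =>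
    intro F' _ _ θ' γ' h' a ha
    obtain ⟨F, _, _, θ, γ, h⟩ := hC.ex n
    obtain ⟨j, hj, -, hr⟩ := hC.emb F F' n (n + 1) θ γ θ' γ' h h' (Nat.le_succ n)
    obtain ⟨hG, hk, ho, hi⟩ := hC.gal F' _ θ' γ' h'
    obtain ⟨-, w, hw, -⟩ := hC.two F' _ θ' γ' h'
    let _ := j.toAlgebra
    have hja : ∀ x, algebraMap F F' x = j x := fun _ => rfl
    have : IsScalarTower ℚ F F' := IsScalarTower.of_algebraMap_eq fun x => by simp
    have : IsGalois F F' := IsGalois.tower_top_of_isGalois ℚ F F'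
    have hrk : Module.finrank F F' = 2 := by
      have := Module.finrank_mul_finrank ℚ F F'
      rw [h.rk, h'.rk, pow_succ] at this
      exact Nat.eq_of_mul_eq_mul_left (by positivity) this
    have hU : Unr F F' 2 := rowNT2.unr F F' (F' ≃ₐ[F] F') 2 fun s hs v => ⟨⟨θ', hi⟩, fun hm => by
      obtain ⟨k, e⟩ := hk (s.restrictScalars ℚ)
      have h1 := hC.dist F' _ θ' γ' h' v k (by
        rw [← e]
        exact (val_lt_one_iff v.1 _).2 hm)
      rw [← e] at h1
      exact hs (AlgEquiv.ext fun x => AlgEquiv.congr_fun h1 x)⟩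
    have hP := hB F F' hrk hU (hC.real F' _ θ' γ' h').1
    have H : ∀ x ∈ Ray F 2 (2 * n + 3), ∀ c : Un F', dy (Un.inc F F' x) c = 0 :=
      fun x hx c => by rw [hP, ih F θ γ h x hx]
    have H' : ∀ y : Un F, dy a (Un.inc F F' y) = 0 := fun y => by
      rw [hA.symm, hP, hA.symm]
      exact ih F θ γ h _ (Ray_anti (by omega) (H10.rowNT1.nrm_Ray F F' 2 _ two_ne_zero a ha)) y
    have hsq : θ' ^ 2 = j (2 + θ) := by
      rw [map_add, hj, map_ofNat]
      simp [tw]
    have h0 : θ' ≠ 0 := fun e => (hC.two F _ θ γ h).1 (j.injective (by rw [← hsq, e]; simp))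
    obtain ⟨g, hg⟩ : ∃ g, g = γ' ^ 2 ^ n := ⟨_, rfl⟩
    rw [← hg] at hr
    have hgg : ∀ y, g (g y) = y := fun y => by
      rw [← AlgEquiv.mul_apply, hg, ← pow_add, ← two_mul, ← pow_succ', ← ho, pow_orderOf_eq_one]
      rfl
    have hgt : g θ' = -θ' := by
      have h1 : g θ' ^ 2 = θ' ^ 2 := by
        rw [← map_pow, hsq]
        exact (hr _).1 ⟨_, rfl⟩
      refine (sq_eq_sq_iff_eq_or_eq_neg.1 h1).resolve_left fun e => ?_
      have h2 : (⊤ : IntermediateField ℚ F') ≤ (IsScalarTower.toAlgHom ℚ F F').fieldRange := by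
        rw [← h'.gen, IntermediateField.adjoin_simple_le_iff]
        exact (hr _).2 e
      have h3 : γ' ^ 2 ^ n = 1 := by
        rw [← hg]
        exact AlgEquiv.ext fun y => (hr y).1 (h2 IntermediateField.mem_top)
      have h4 := Nat.le_of_dvd (by positivity) (orderOf_dvd_of_pow_eq_one h3)
      rw [ho, pow_succ] at h4
      have : 0 < 2 ^ n := by positivity
      omega
    have dec : ∀ y : F', ∃ y₀ y₁ : F, j y₀ = (y + g y) / 2 ∧ j y₁ = (y - g y) / (2 * θ') ∧
        y = j y₀ + j y₁ * θ' := fun y => by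
      obtain ⟨y₀, e₀⟩ := (hr ((y + g y) / 2)).2 (by
        rw [map_div₀, map_add, hgg, map_ofNat, add_comm])
      obtain ⟨y₁, e₁⟩ := (hr ((y - g y) / (2 * θ'))).2 (by
        rw [map_div₀, map_sub, hgg, map_mul, map_ofNat, hgt]
        field_simp
        ring)
      refine ⟨y₀, y₁, e₀, e₁, ?_⟩
      rw [e₀, e₁]
      field_simp
      ring
    have ht : θ' ∈ Rl F' 2 := coe_mem_Rl (⟨θ', hi⟩ : 𝓞 F')
    obtain ⟨y, hy, ea⟩ := (mem_Ray_iff two_ne_zero (by omega)).1 ha
    obtain ⟨a₀, a₁, e₀, e₁, e₂⟩ := dec a.val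
    have hga : g a.val = 1 + 2 ^ (2 * (n + 1) + 3) * g y := by
      rw [ea, map_add, map_one, map_mul, map_pow, map_natCast, Nat.cast_ofNat]
    have key := step hA (2 * n + 3) (by omega) H a H' θ' (2 * (y + g y)) (2 / θ' * (y - g y)) a₀ a₁
      e₂ (mul_mem (by exact_mod_cast natCast_mem (Rl F' 2) 2) (add_mem hy (map_Rl g hy)))
      (mul_mem (two_div _ ht h0 n h'.root) (sub_mem hy (map_Rl g hy)))
      (by
        rw [hja, e₀, hga, ea]
        push_cast
        ring)
      (by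
        rw [hja, e₁, hga, ea]
        push_cast
        field_simp
        ring)
    have hRl : ∀ x x' : F', w.valuation F' x ≤ w.valuation F' x' → x / x' ∈ Rl F' 2 :=
      fun x x' hx => (mem_Rl_iff two_ne_zero).2 fun v hv => by
        rw [(hw v).1 hv, map_div₀]
        exact div_le_one_of_le₀ hx zero_le
    intro b
    obtain ⟨b₀, b₁, -, -, eb⟩ := dec b.val
    rcases le_total (w.valuation F' (j b₀)) (w.valuation F' (j b₁)) with hv | hv
    · refine key b b₀ b₁ eb (fun e => b.val_ne ?_) (hRl _ _ hv)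
      have : j b₀ = 0 := by simpa [e] using hv
      simp [eb, this, e]
    · have k1 := key (Un.mk θ' h0) 0 1 (by simp) one_ne_zero (by simp)
      have k2 := key (b + Un.mk θ' h0) (b₁ * (2 + θ)) b₀ (by
        rw [Un.val_add, Un.val_mk, hja, hja, map_mul, ← hsq, eb]
        ring) (fun e => b.val_ne (by
          have : j b₁ = 0 := by simpa [e] using hv
          simp [eb, this, e])) (by
        rw [hja, hja, map_mul, ← hsq, mul_comm, mul_div_assoc]
        exact mul_mem (pow_mem ht 2) (hRl _ _ hv))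
      rw [hA.symm, hA.add, hA.symm, hA.symm _ (Un.mk θ' h0), k1, add_zero] at k2
      exact k2

end Pool.Agent.MP_1246c0_nt.H12
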